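import Pool.Agent.helper24.IC.Spec

/-!
# Row ic:GRO: growth of the set of pivots (MP_337222_al, project IC)
-/

set_option autoImplicit false

namespace Pool.Agent.IC

universe u

theorem GRO_bb_le {S : Type u} [Ring S] (E : ℕ → S) (γ : ℕ → ℕ → S) (a j : ℕ) (h : j ≤ a) :
    bb E γ (a + 1) j = bb E γ a j * E (a + 1) := by
  simp [bb, h]

theorem GRO_bb_top {S : Type u} [Ring S] (E : ℕ → S) (γ : ℕ → ℕ → S) (a : ℕ) :
    bb E γ (a + 1) (a + 1) = ∑ l ∈ Finset.range (a + 1), bb E γ a l * γ a l := by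
  simp [bb]

theorem GRO (hBAS : BAS_stmt.{u}) : GRO_stmt.{u} := by
  intro S _ R E γ hM a A j hj hP
  obtain ⟨P, s, hPa, hPc, hs⟩ := hP
  obtain ⟨hB1, -, -, -, -⟩ := hBAS S R E γ hM
  have hPa' : ∀ i ∈ P, i ≤ a := fun i hi => by
    have := Finset.mem_range.1 (hPa hi); omega
  have hle1 := hM.le1 a
  have hle2 := hM.le2 a
  have hid := hM.idem (a + 1)
  obtain ⟨i₀, hi₀⟩ : P.Nonempty := by
    rw [← Finset.card_pos, hPc]; omega
  obtain ⟨hv1, hv2, hv3, hv4⟩ := hs i₀ hi₀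
  have hsub : R a ≤ R (a + 1) := hM.mono (Nat.le_succ a)
  have hE'm : E (a + 1) ∈ R (a + 1) := hM.mem (a + 1)
  obtain ⟨v, hv⟩ : ∃ v, v = s i₀ := ⟨_, rfl⟩
  rw [← hv] at hv1 hv2 hv3 hv4
  obtain ⟨x, hx⟩ : ∃ x, x = (1 - E (a + 1)) * v := ⟨_, rfl⟩
  have huR : x ∈ R (a + 1) := by
    rw [hx]; exact (R (a + 1)).mul_mem (sub_mem (one_mem _) hE'm) (hsub hv1)
  have huA : x ∈ A := by rw [hx]; exact A.mul_mem_left _ hv2
  have hu0 : ∀ i' ∈ P, x * bb E γ (a + 1) i' = 0 := by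
    intro i' hi'
    rw [GRO_bb_le E γ a i' (hPa' i' hi'), hx]
    have h1 : (1 - E (a + 1)) * v * (bb E γ a i' * E (a + 1)) =
        (1 - E (a + 1)) * (v * bb E γ a i') * E (a + 1) := by noncomm_ring
    rw [h1, hv4 i' hi']
    split_ifs
    · have h2 : (1 - E (a + 1)) * E a * E (a + 1) = E a * E (a + 1) - E (a + 1) * (E a * E (a + 1)) := by
        noncomm_ring
      rw [h2, hle1, hid, sub_self]
    · simp
  have hclaim : ∃ q, q ≤ a + 1 ∧ x * bb E γ (a + 1) q ≠ 0 := by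
    by_contra hcon
    have hcon' : ∀ q, q ≤ a + 1 → x * bb E γ (a + 1) q = 0 := by
      intro q hq
      by_contra h
      exact hcon ⟨q, hq, h⟩
    refine hM.star a (fun l => v * bb E γ a l) ?_ ⟨i₀, hPa' i₀ hi₀, ?_⟩ ?_
    · intro l hl
      refine ⟨(R a).mul_mem hv1 (hB1 a l).1, ?_, ?_, ?_⟩
      · rw [← mul_assoc, hv3]
      · rw [mul_assoc, (hB1 a l).2]
      · have h := hcon' l (by omega)
        rw [GRO_bb_le E γ a l hl, hx] at h
        rw [← h]; noncomm_ring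
    · show v * bb E γ a i₀ ≠ 0
      rw [hv4 i₀ hi₀, if_pos rfl]
      exact hM.ne a
    · have h := hcon' (a + 1) le_rfl
      rw [GRO_bb_top, hx, mul_assoc, Finset.mul_sum] at h
      rw [← h]
      have h2 : ∑ l ∈ Finset.range (a + 1), v * bb E γ a l * γ a l =
          ∑ l ∈ Finset.range (a + 1), v * (bb E γ a l * γ a l) :=
        Finset.sum_congr rfl (fun l _ => mul_assoc _ _ _)
      rw [h2]
  obtain ⟨q, hq, hq0⟩ := hclaim
  have hqP : q ∉ P := fun h => hq0 (hu0 q h)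
  have hbq := hB1 (a + 1) q
  have hxq : x * bb E γ (a + 1) q * E (a + 1) = x * bb E γ (a + 1) q := by
    rw [mul_assoc, hbq.2]
  obtain ⟨y, hyR, hy⟩ : ∃ y ∈ R (a + 1), y * (x * bb E γ (a + 1) q) = E (a + 1) := by
    rcases hM.prim (a + 1) (x * bb E γ (a + 1) q) ((R (a + 1)).mul_mem huR hbq.1) with h | ⟨y, hy, h⟩
    · exact absurd (hxq.symm.trans h) hq0
    · exact ⟨y, hy, by rw [← hxq]; exact h⟩
  obtain ⟨w, hw⟩ : ∃ w, w = E (a + 1) * (y * x) := ⟨_, rfl⟩
  have hwR : w ∈ R (a + 1) := by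
    rw [hw]; exact (R (a + 1)).mul_mem hE'm ((R (a + 1)).mul_mem hyR huR)
  have hwA : w ∈ A := by rw [hw]; exact A.mul_mem_left _ (A.mul_mem_left _ huA)
  have hwE : E (a + 1) * w = w := by rw [hw, ← mul_assoc, hid]
  have hwq : w * bb E γ (a + 1) q = E (a + 1) := by
    rw [hw, mul_assoc, mul_assoc, hy, hid]
  have hwP : ∀ i' ∈ P, w * bb E γ (a + 1) i' = 0 := by
    intro i' hi'
    rw [hw, mul_assoc, mul_assoc, hu0 i' hi', mul_zero, mul_zero]
  have hz : ∀ i ∈ P, ∀ i' ∈ P, E (a + 1) * s i * bb E γ (a + 1) i' = if i = i' then E (a + 1) else 0 := by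
    intro i hi i' hi'
    rw [GRO_bb_le E γ a i' (hPa' i' hi')]
    have h1 : E (a + 1) * s i * (bb E γ a i' * E (a + 1)) =
        E (a + 1) * (s i * bb E γ a i') * E (a + 1) := by noncomm_ring
    rw [h1, (hs i hi).2.2.2 i' hi']
    split_ifs
    · rw [hle2, hid]
    · simp
  refine ⟨insert q P, fun i => if i = q then w else
    E (a + 1) * s i - (E (a + 1) * s i * bb E γ (a + 1) q) * w, ?_, ?_, ?_⟩
  · intro i hi
    rw [Finset.mem_insert] at hi
    rw [Finset.mem_range]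
    rcases hi with hi | hi
    · omega
    · have := hPa' i hi; omega
  · rw [Finset.card_insert_of_notMem hqP, hPc]
  · intro i hi
    beta_reduce
    rw [Finset.mem_insert] at hi
    rcases hi with hi | hi
    · rw [if_pos hi]
      refine ⟨hwR, hwA, hwE, ?_⟩
      intro i' hi'
      rw [Finset.mem_insert] at hi'
      rcases hi' with hi' | hi'
      · rw [if_pos (hi.trans hi'.symm), hi']; exact hwq
      · rw [if_neg (by rintro rfl; exact hqP (hi ▸ hi'))]; exact hwP i' hi'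
    · have hiq : i ≠ q := by rintro rfl; exact hqP hi
      have hz1 : E (a + 1) * s i ∈ R (a + 1) := (R (a + 1)).mul_mem hE'm (hsub (hs i hi).1)
      have hz2 : E (a + 1) * s i ∈ A := A.mul_mem_left _ (hs i hi).2.1
      rw [if_neg hiq]
      refine ⟨(R (a + 1)).sub_mem hz1 ((R (a + 1)).mul_mem ((R (a + 1)).mul_mem hz1 hbq.1) hwR),
        A.sub_mem hz2 (A.mul_mem_left _ hwA), ?_, ?_⟩
      · have h1 : E (a + 1) * (E (a + 1) * s i - E (a + 1) * s i * bb E γ (a + 1) q * w) =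
            (E (a + 1) * E (a + 1)) * s i - (E (a + 1) * E (a + 1)) * s i * bb E γ (a + 1) q * w := by
          noncomm_ring
        rw [h1, hid]
      · intro i' hi'
        rw [Finset.mem_insert] at hi'
        rcases hi' with hi' | hi'
        · rw [if_neg (by rw [hi']; exact hiq), hi', sub_mul, mul_assoc _ w, hwq]
          rw [mul_assoc _ (bb E γ (a + 1) q), hbq.2, sub_self]
        · rw [sub_mul, mul_assoc _ w, hwP i' hi', mul_zero, sub_zero]
          exact hz i hi i' hi'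

end Pool.Agent.IC
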